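import Pool.Agent.P.MP_fa9958_co.Defs

namespace Pool.Agent.P.MP_fa9958_co

@[simp] theorem length_block (x : ℕ → Bool) (i n : ℕ) : (block x i n).length = n := by
  simp [block]

theorem block_succ (x : ℕ → Bool) (i n : ℕ) : block x i (n + 1) = block x i n ++ [x (i + n)] := by
  simp [block, List.range_succ]

theorem isFactor_block (x : ℕ → Bool) (i n : ℕ) : IsFactor (block x i n) x := ⟨i, by simp⟩

theorem block_eq_iff {x y : ℕ → Bool} {i j n : ℕ} :
    block x i n = block y j n ↔ ∀ t < n, x (i + t) = y (j + t) := by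
  simp [block]

/-- number of ones among the first `n` letters -/
def P (x : ℕ → Bool) (n : ℕ) : ℤ := ∑ t ∈ Finset.range n, if x t then 1 else 0

theorem P_succ (x : ℕ → Bool) (n : ℕ) : P x (n + 1) = P x n + if x n then 1 else 0 := by
  rw [P, P, Finset.sum_range_succ]

theorem count_block (x : ℕ → Bool) (i n : ℕ) :
    ((block x i n).count true : ℤ) = P x (i + n) - P x i := by
  induction n with
  | zero => simp [block]
  | succ n ih =>
    rw [block_succ, List.count_append, ← add_assoc, P_succ]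
    push_cast
    rw [ih]
    cases x (i + n) <;> simp <;> ring

theorem P_sub_congr {x y : ℕ → Bool} {i j n : ℕ} (h : ∀ t < n, x (i + t) = y (j + t)) :
    ∀ u ≤ n, P x (i + u) - P x i = P y (j + u) - P y j := by
  intro u hu
  rw [← count_block, ← count_block, block_eq_iff.mpr fun t ht => h t (by omega)]

theorem P_sub_nonneg (x : ℕ → Bool) (i n : ℕ) : 0 ≤ P x (i + n) - P x i := by
  rw [← count_block]; positivity

theorem P_sub_le (x : ℕ → Bool) (i n : ℕ) : P x (i + n) - P x i ≤ n := by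
  rw [← count_block]
  have := List.count_le_length (a := true) (l := block x i n)
  rw [length_block] at this
  exact_mod_cast this

theorem ivt_aux (a : ℕ → ℤ) (ha : ∀ j, a (j + 1) ≤ a j + 1) (k : ℤ) (i m : ℕ)
    (h1 : a i ≤ k) (h2 : k ≤ a (i + m)) : ∃ j, a j = k := by
  induction m with
  | zero => exact ⟨i, le_antisymm h1 h2⟩
  | succ m ih =>
    by_cases h : k ≤ a (i + m)
    · exact ih h
    · exact ⟨i + (m + 1), by have := ha (i + m); rw [← add_assoc] at h2 ⊢; omega⟩

theorem ivt (x : ℕ → Bool) (n : ℕ) (k : ℤ) (i i' : ℕ) (h1 : P x (i + n) - P x i ≤ k)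
    (h2 : k ≤ P x (i' + n) - P x i') : ∃ j, P x (j + n) - P x j = k := by
  have step : ∀ j, P x (j + 1 + n) - P x (j + 1) ≤ P x (j + n) - P x j + 1 ∧
      P x (j + n) - P x j ≤ P x (j + 1 + n) - P x (j + 1) + 1 := by
    intro j
    rw [add_right_comm, P_succ, P_succ]
    cases x (j + n) <;> cases x j <;> simp <;> omega
  rcases le_total i i' with h | h
  · obtain ⟨m, rfl⟩ := Nat.exists_eq_add_of_le h
    exact ivt_aux (fun j => P x (j + n) - P x j) (fun j => (step j).1) k i m h1 h2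
  · obtain ⟨m, rfl⟩ := Nat.exists_eq_add_of_le h
    obtain ⟨j, hj⟩ := ivt_aux (fun j => -(P x (j + n) - P x j))
      (fun j => by have := (step j).2; omega) (-k) i' m (by omega) (by omega)
    exact ⟨j, by omega⟩

/-- the word with prescribed increments -/
def ofPath (R : ℕ → ℤ) : ℕ → Bool := fun i => decide (R (i + 1) - R i = 1)

theorem P_ofPath {R : ℕ → ℤ} (h : ∀ i, 0 ≤ R (i + 1) - R i ∧ R (i + 1) - R i ≤ 1) (n : ℕ) :
    P (ofPath R) n = R n - R 0 := by
  induction n with
  | zero => simp [P]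
  | succ n ih =>
    rw [P_succ, ih]
    have := h n
    by_cases h1 : R (n + 1) - R n = 1
    · simp only [ofPath, h1, decide_true, if_true]; omega
    · simp only [ofPath, h1, decide_false, Bool.false_eq_true, if_false]; omega

/-- a path inside the corridor of `x` -/
def InCorridor (x : ℕ → Bool) (R : ℕ → ℤ) : Prop :=
  ∀ i n, (∃ j, R (i + n) - R i ≤ P x (j + n) - P x j) ∧ ∃ j, P x (j + n) - P x j ≤ R (i + n) - R i

theorem InCorridor.step {x R} (h : InCorridor x R) (i : ℕ) :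
    0 ≤ R (i + 1) - R i ∧ R (i + 1) - R i ≤ 1 := by
  obtain ⟨⟨j, hj⟩, ⟨j', hj'⟩⟩ := h i 1
  have h1 := P_sub_le x j 1
  have h2 := P_sub_nonneg x j' 1
  constructor <;> omega

theorem InCorridor.P_eq {x R} (h : InCorridor x R) (n : ℕ) : P (ofPath R) n = R n - R 0 :=
  P_ofPath h.step n

theorem InCorridor.mem {x R} (h : InCorridor x R) : ofPath R ∈ abelianClosure x := by
  rintro u ⟨i, hu⟩
  obtain ⟨⟨j, hj⟩, ⟨j', hj'⟩⟩ := h i u.length
  obtain ⟨k, hk⟩ := ivt x u.length _ j' j hj' hj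
  refine ⟨block x k u.length, isFactor_block _ _ _, by simp, ?_⟩
  have h1 := count_block x k u.length
  have h2 := count_block (ofPath R) i u.length
  rw [← hu, h.P_eq, h.P_eq] at h2
  omega

/-- all initial blocks of `z` occur in `y` -/
def Sub (z y : ℕ → Bool) : Prop := ∀ n, ∃ j, ∀ t < n, z t = y (j + t)

theorem isClosed_sub (y : ℕ → Bool) : IsClosed {z | Sub z y} := by
  have : {z | Sub z y} = ⋂ n, (fun (z : ℕ → Bool) (t : Fin n) => z t) ⁻¹'
      {w | ∃ j, ∀ t : Fin n, w t = y (j + t)} := by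
    ext z
    simp only [Sub, Set.mem_ofPred_eq, Set.mem_iInter, Set.mem_preimage]
    exact forall_congr' fun n => exists_congr fun j => ⟨fun h t => h t t.2, fun h t ht => h ⟨t, ht⟩⟩
  rw [this]
  exact isClosed_iInter fun n => (isClosed_discrete _).preimage (by fun_prop)

theorem exists_minimal (y : ℕ → Bool) : ∃ M, IsMinimalSubshift M ∧ ∀ z ∈ M, Sub z y := by
  let S : Set (Set (ℕ → Bool)) := {N | N.Nonempty ∧ IsClosed N ∧ ∀ z ∈ N, shift z ∈ N}
  have h0 : {z | Sub z y} ∈ S := by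
    refine ⟨⟨y, fun n => ⟨0, by simp⟩⟩, isClosed_sub y, fun z hz n => ?_⟩
    obtain ⟨j, hj⟩ := hz (n + 1)
    exact ⟨j + 1, fun t ht => by rw [shift, hj (t + 1) (by omega)]; congr 1; omega⟩
  obtain ⟨M, hM, hmin⟩ := zorn_superset_nonempty S (fun c hc hchain hne => by
    have : Nonempty c := hne.to_subtype
    refine ⟨⋂₀ c, ⟨?_, isClosed_sInter fun N hN => (hc hN).2.1, ?_⟩,
      fun s hs => Set.sInter_subset_of_mem hs⟩
    · exact IsCompact.nonempty_sInter_of_directed_nonempty_isCompact_isClosed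
        (IsChain.directedOn hchain.symm) (fun N hN => (hc hN).1)
        (fun N hN => (hc hN).2.1.isCompact) (fun N hN => (hc hN).2.1)
    · intro z hz N hN
      exact (hc hN).2.2 z (hz N hN)) _ h0
  refine ⟨M, ⟨hmin.1.1, hmin.1.2.1, hmin.1.2.2, fun N hN h1 h2 h3 => ?_⟩, fun z hz => hM hz⟩
  exact hN.antisymm (hmin.2 ⟨h1, h2, h3⟩ hN)

theorem mem_closure_of_sub {x y z : ℕ → Bool} (hy : y ∈ abelianClosure x) (h : Sub z y) :
    z ∈ abelianClosure x := by
  rintro u ⟨i, hu⟩
  obtain ⟨j, hj⟩ := h (i + u.length)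
  refine hy u ⟨j + i, hu.trans (block_eq_iff.mpr fun t ht => ?_)⟩
  rw [hj (i + t) (by omega), add_assoc]

/-- an uncountable family of words without common limit words gives uncountably many
minimal subshifts -/
theorem uncountable_of_family {x : ℕ → Bool} {Λ : Set ℝ} (hΛ : ¬ Λ.Countable)
    (y : ℝ → ℕ → Bool) (hy : ∀ t ∈ Λ, y t ∈ abelianClosure x)
    (hsep : ∀ t ∈ Λ, ∀ t' ∈ Λ, t < t' → ∀ z, Sub z (y t) → Sub z (y t') → False) :
    ¬ {M | IsMinimalSubshift M ∧ M ⊆ abelianClosure x}.Countable := by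
  intro hc
  choose M hM hsub using fun t => exists_minimal (y t)
  refine hΛ (Set.MapsTo.countable_of_injOn (f := M) ?_ ?_ hc)
  · intro t ht
    exact ⟨hM t, fun z hz => mem_closure_of_sub (hy t ht) (hsub t z hz)⟩
  · intro t ht t' ht' h
    obtain ⟨z, hz⟩ := (hM t).1
    have h1 := hsub t z hz
    have h2 := hsub t' z (h ▸ hz)
    rcases lt_trichotomy t t' with hlt | heq | hlt
    · exact (hsep t ht t' ht' hlt z h1 h2).elim
    · exact heq
    · exact (hsep t' ht' t ht hlt z h2 h1).elim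

/-- the discrepancy path -/
noncomputable def s (x : ℕ → Bool) (α : ℝ) (i : ℕ) : ℝ := P x i - α * i

theorem s_sub (x : ℕ → Bool) (α : ℝ) (i n : ℕ) :
    s x α (i + n) - s x α i = (P x (i + n) - P x i : ℤ) - α * n := by
  simp only [s]; push_cast; ring

theorem freq_bounds {x : ℕ → Bool} {α : ℝ} (hα : HasUniformFrequency x α) (n : ℕ) :
    (∃ j, α * n ≤ (P x (j + n) - P x j : ℤ)) ∧ ∃ j, ((P x (j + n) - P x j : ℤ) : ℝ) ≤ α * n := by
  rcases Nat.eq_zero_or_pos n with rfl | hn
  · simp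
  have hn' : (0 : ℝ) < n := by exact_mod_cast hn
  have key : ∀ ε : ℝ, 0 < ε → ∃ m : ℕ, 0 < m ∧ |(P x (m * n) : ℝ) - α * (m * n)| < ε * (m * n) := by
    intro ε hε
    obtain ⟨N, hN⟩ := hα ε hε
    refine ⟨N + 1, by omega, ?_⟩
    have h1 := hN ((N + 1) * n) (by nlinarith) 0
    have h2 : (((block x 0 ((N + 1) * n)).count true : ℕ) : ℝ) = (P x ((N + 1) * n) : ℝ) := by
      have := count_block x 0 ((N + 1) * n)
      simp only [zero_add, P, Finset.range_zero, Finset.sum_empty, sub_zero] at this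
      rw [P, ← this]; simp
    have h3 : (0 : ℝ) < (((N + 1) * n : ℕ) : ℝ) := by positivity
    rw [h2, div_sub' h3.ne', abs_div, abs_of_pos h3, div_lt_iff₀ h3] at h1
    push_cast at h1 ⊢
    rwa [mul_comm α]
  constructor
  · by_contra hc
    push Not at hc
    have h1 : ∀ j, P x (j + n) - P x j ≤ ⌈α * n⌉ - 1 := fun j => by
      have := Int.lt_ceil.mpr (hc j); omega
    have h2 : ∀ m : ℕ, P x (m * n) ≤ m * (⌈α * n⌉ - 1) := by
      intro m
      induction m with
      | zero => simp [P]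
      | succ m ih => have := h1 (m * n); rw [Nat.succ_mul]; push_cast; linarith
    have h3 : ((⌈α * n⌉ : ℝ) - 1) < α * n := by linarith [Int.ceil_lt_add_one (α * n)]
    obtain ⟨m, hm, h4⟩ := key ((α * n - (⌈α * n⌉ - 1)) / n) (div_pos (by linarith) hn')
    have h5 : (P x (m * n) : ℝ) ≤ m * (⌈α * n⌉ - 1) := by exact_mod_cast h2 m
    have h6 : (α * n - (⌈α * n⌉ - 1)) / n * (m * n) = m * (α * n - (⌈α * n⌉ - 1)) := by
      field_simp
    rw [h6] at h4
    have := (abs_lt.mp h4).1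
    nlinarith
  · by_contra hc
    push Not at hc
    have h1 : ∀ j, ⌊α * n⌋ + 1 ≤ P x (j + n) - P x j := fun j => by
      have := Int.floor_lt.mpr (hc j); omega
    have h2 : ∀ m : ℕ, m * (⌊α * n⌋ + 1) ≤ P x (m * n) := by
      intro m
      induction m with
      | zero => simp [P]
      | succ m ih => have := h1 (m * n); rw [Nat.succ_mul]; push_cast; linarith
    have h3 : α * n < (⌊α * n⌋ : ℝ) + 1 := Int.lt_floor_add_one _
    obtain ⟨m, hm, h4⟩ := key (((⌊α * n⌋ + 1) - α * n) / n) (div_pos (by linarith) hn')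
    have h5 : (m : ℝ) * (⌊α * n⌋ + 1) ≤ P x (m * n) := by exact_mod_cast h2 m
    have h6 : ((⌊α * n⌋ + 1) - α * n) / n * (m * n) = m * ((⌊α * n⌋ + 1) - α * n) := by
      field_simp
    rw [h6] at h4
    have := (abs_lt.mp h4).2
    nlinarith

/-- uniform recurrence for an initial block -/
theorem recur {x : ℕ → Bool} (hx : UniformlyRecurrent x) (i n : ℕ) :
    ∃ L, ∀ k, ∃ j, k ≤ j ∧ j ≤ k + L ∧ ∀ t < n, x (i + t) = x (j + t) := by
  obtain ⟨L, hL⟩ := hx _ (isFactor_block x i n)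
  refine ⟨L, fun k => ?_⟩
  obtain ⟨j, h1, h2, h3⟩ := hL k
  rw [length_block] at h3
  exact ⟨j, h1, h2, block_eq_iff.mp h3⟩

end Pool.Agent.P.MP_fa9958_co
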