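import Mathlib

/-! Infinite binary words are maps `ℕ → Bool` (`true` is the letter 1), with the product
topology. -/

namespace Pool.Agent.P.MP_fa9958_co

/-- the block `x i, x (i+1), ..., x (i+n-1)` -/
def block (x : ℕ → Bool) (i n : ℕ) : List Bool := (List.range n).map fun t => x (i + t)

def IsFactor (u : List Bool) (x : ℕ → Bool) : Prop := ∃ i, u = block x i u.length

/-- the abelian closure: every factor of `y` is abelian equivalent to a factor of `x` -/
def abelianClosure (x : ℕ → Bool) : Set (ℕ → Bool) :=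
  {y | ∀ u, IsFactor u y → ∃ v, IsFactor v x ∧ u.length = v.length ∧ u.count true = v.count true}

def shift (x : ℕ → Bool) : ℕ → Bool := fun n => x (n + 1)

def IsMinimalSubshift (M : Set (ℕ → Bool)) : Prop :=
  M.Nonempty ∧ IsClosed M ∧ (∀ y ∈ M, shift y ∈ M) ∧
    ∀ N ⊆ M, N.Nonempty → IsClosed N → (∀ y ∈ N, shift y ∈ N) → N = M

def UniformlyRecurrent (x : ℕ → Bool) : Prop :=
  ∀ u, IsFactor u x → ∃ L, ∀ i, ∃ j, i ≤ j ∧ j ≤ i + L ∧ u = block x j u.length

def Aperiodic (x : ℕ → Bool) : Prop := ¬ ∃ p N, 0 < p ∧ ∀ n, N ≤ n → x (n + p) = x n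

def Sturmian (x : ℕ → Bool) : Prop :=
  Aperiodic x ∧ ∀ n, {u | IsFactor u x ∧ u.length = n}.ncard = n + 1

def HasUniformFrequency (x : ℕ → Bool) (α : ℝ) : Prop :=
  ∀ ε : ℝ, 0 < ε → ∃ N, ∀ n, N ≤ n → ∀ i, |((block x i n).count true : ℝ) / n - α| < ε

end Pool.Agent.P.MP_fa9958_co
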