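import Pool.Agent.P.MP_fa9958_co.Sturm

namespace Pool.Agent.P.MP_fa9958_co

open Set Topology

theorem sub_s {z y : ℕ → Bool} (h : Sub z y) (α : ℝ) (N : ℕ) :
    ∃ j, ∀ u ≤ N, ∀ u' ≤ N, s z α u - s z α u' = s y α (j + u) - s y α (j + u') := by
  obtain ⟨j, hj⟩ := h N
  refine ⟨j, fun u hu u' hu' => ?_⟩
  have key := P_sub_congr (x := z) (y := y) (i := 0) (j := j) (n := N) (by simpa using hj)
  have h1 := key u hu
  have h2 := key u' hu'
  simp only [zero_add] at h1 h2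
  have h3 : (P z u : ℝ) - P z u' = P y (j + u) - P y (j + u') := by
    have : P z u - P z u' = P y (j + u) - P y (j + u') := by omega
    exact_mod_cast this
  simp only [s]; push_cast; linarith

theorem s_congr {x : ℕ → Bool} (α : ℝ) {i j n : ℕ} (h : ∀ t < n, x (i + t) = x (j + t)) :
    ∀ u ≤ n, s x α (j + u) - s x α j = s x α (i + u) - s x α i := by
  intro u hu
  rw [s_sub, s_sub, P_sub_congr h u hu]

theorem s_ofPath {x R} (h : InCorridor x R) (α : ℝ) (a b : ℕ) :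
    s (ofPath R) α b - s (ofPath R) α a = (R b - α * b) - (R a - α * a) := by
  simp only [s, h.P_eq]; push_cast; ring

/-! ### unbounded discrepancy -/

noncomputable def Rl (x : ℕ → Bool) (α l : ℝ) (i : ℕ) : ℤ := ⌊l * s x α i + α * i⌋

theorem Rl_corridor {x : ℕ → Bool} {α : ℝ} (hα : HasUniformFrequency x α) {l : ℝ}
    (h0 : 0 ≤ l) (h1 : l ≤ 1) : InCorridor x (Rl x α l) := by
  intro i n
  obtain ⟨⟨j, hj⟩, ⟨j', hj'⟩⟩ := freq_bounds hα n
  have hs := s_sub x α i n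
  have up : ∀ k : ℤ, ((P x (i + n) - P x i : ℤ) : ℝ) ≤ k → α * n ≤ k →
      Rl x α l (i + n) - Rl x α l i ≤ k := by
    intro k a b
    have : l * s x α (i + n) + α * ((i + n : ℕ) : ℝ) ≤ l * s x α i + α * i + k := by
      push_cast at *; nlinarith
    have := Int.floor_le_floor this
    rw [Int.floor_add_intCast] at this
    unfold Rl; omega
  have lo : ∀ k : ℤ, (k : ℝ) ≤ ((P x (i + n) - P x i : ℤ) : ℝ) → k ≤ α * n →
      k ≤ Rl x α l (i + n) - Rl x α l i := by
    intro k a b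
    have : l * s x α i + α * i + k ≤ l * s x α (i + n) + α * ((i + n : ℕ) : ℝ) := by
      push_cast at *; nlinarith
    have := Int.floor_le_floor this
    rw [Int.floor_add_intCast] at this
    unfold Rl; omega
  constructor
  · rcases le_total ((P x (i + n) - P x i : ℤ) : ℝ) (α * n) with h | h
    · exact ⟨j, up _ (h.trans hj) hj⟩
    · exact ⟨i, up _ le_rfl h⟩
  · rcases le_total ((P x (i + n) - P x i : ℤ) : ℝ) (α * n) with h | h
    · exact ⟨i, lo _ le_rfl h⟩
    · exact ⟨j', lo _ (hj'.trans h) hj'⟩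

theorem Rl_approx {x : ℕ → Bool} {α : ℝ} (hα : HasUniformFrequency x α) {l : ℝ}
    (h0 : 0 ≤ l) (h1 : l ≤ 1) (a b : ℕ) :
    |s (ofPath (Rl x α l)) α b - s (ofPath (Rl x α l)) α a - l * (s x α b - s x α a)| < 1 := by
  rw [s_ofPath (Rl_corridor hα h0 h1), abs_lt]
  have a1 := Int.floor_le (l * s x α a + α * a)
  have a2 := Int.lt_floor_add_one (l * s x α a + α * a)
  have b1 := Int.floor_le (l * s x α b + α * b)
  have b2 := Int.lt_floor_add_one (l * s x α b + α * b)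
  unfold Rl
  constructor <;> linarith

theorem unbounded_case {x : ℕ → Bool} {α : ℝ} (hα : HasUniformFrequency x α)
    (hr : UniformlyRecurrent x) (hU : ∀ K : ℝ, ∃ i n, K < |s x α (i + n) - s x α i|) :
    ¬ {M | IsMinimalSubshift M ∧ M ⊆ abelianClosure x}.Countable := by
  refine uncountable_of_family (Λ := Ioo 0 1) ?_ (fun l => ofPath (Rl x α l))
    (fun l hl => (Rl_corridor hα hl.1.le hl.2.le).mem) ?_
  · rw [← Cardinal.le_aleph0_iff_set_countable, Cardinal.mk_Ioo_real one_pos, not_le]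
    exact Cardinal.aleph0_lt_continuum
  intro t ht t' ht' hlt z hz hz'
  obtain ⟨i, n, hK⟩ := hU (2 / (t' - t))
  obtain ⟨σ, hσ, hσK⟩ : ∃ σ : ℝ, (σ = 1 ∨ σ = -1) ∧
      2 / (t' - t) < σ * (s x α (i + n) - s x α i) := by
    rcases lt_abs.mp hK with h | h
    · exact ⟨1, .inl rfl, by linarith⟩
    · exact ⟨-1, .inr rfl, by linarith⟩
  have hfin : (range fun j => σ * (s x α (j + n) - s x α j)).Finite := by
    refine ((Finset.Icc (0 : ℤ) n).finite_toSet.image fun k : ℤ => σ * (k - α * n)).subset ?_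
    rintro _ ⟨j, rfl⟩
    exact ⟨_, Finset.mem_coe.mpr (Finset.mem_Icc.mpr ⟨P_sub_nonneg x j n, P_sub_le x j n⟩),
      by simp only [s_sub]⟩
  obtain ⟨_, ⟨j₀, rfl⟩, hmax⟩ := exists_max_image _ id hfin (range_nonempty _)
  have hmax' : ∀ j, σ * (s x α (j + n) - s x α j) ≤ σ * (s x α (j₀ + n) - s x α j₀) :=
    fun j => hmax _ ⟨j, rfl⟩
  obtain ⟨L, hL⟩ := recur hr j₀ n
  obtain ⟨j, hj⟩ := sub_s hz' α (L + n)
  obtain ⟨k, hk⟩ := sub_s hz α (L + n)
  obtain ⟨j', h1, h2, h3⟩ := hL j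
  obtain ⟨u, rfl⟩ := Nat.exists_eq_add_of_le h1
  have e1 := hj (u + n) (by omega) u (by omega)
  have e2 := hk (u + n) (by omega) u (by omega)
  have e3 := s_congr α h3 n le_rfl
  have e4 := Rl_approx hα ht'.1.le ht'.2.le (j + u) (j + u + n)
  have e5 := Rl_approx hα ht.1.le ht.2.le (k + u) (k + u + n)
  rw [← add_assoc] at e1 e2
  rw [← e1, e3, abs_lt] at e4
  rw [← e2, abs_lt] at e5
  have e6 := hmax' (k + u)
  have e7 := hσK.trans_le (hmax' i)
  rw [div_lt_iff₀ (by linarith)] at e7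
  have e8 := mul_le_mul_of_nonneg_left e6 ht.1.le
  rcases hσ with rfl | rfl <;> nlinarith

/-! ### bounded discrepancy -/

open Classical in
noncomputable def Rc (x : ℕ → Bool) (α t : ℝ) (i : ℕ) : ℤ := P x i - if t ≤ s x α i then 1 else 0

theorem Rc_corridor {x : ℕ → Bool} {α : ℝ} (hα : HasUniformFrequency x α) (t : ℝ) :
    InCorridor x (Rc x α t) := by
  intro i n
  obtain ⟨⟨j, hj⟩, ⟨j', hj'⟩⟩ := freq_bounds hα n
  have hs := s_sub x α i n
  unfold Rc
  by_cases h1 : t ≤ s x α (i + n) <;> by_cases h2 : t ≤ s x α i <;> simp only [h1, h2, if_true, if_false]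
  · exact ⟨⟨i, by omega⟩, ⟨i, by omega⟩⟩
  · refine ⟨⟨i, by omega⟩, ⟨j', ?_⟩⟩
    have : ((P x (j' + n) - P x j' : ℤ) : ℝ) < ((P x (i + n) - P x i : ℤ) : ℝ) := by linarith
    have := Int.cast_lt.mp this
    omega
  · refine ⟨⟨j, ?_⟩, ⟨i, by omega⟩⟩
    have : ((P x (i + n) - P x i : ℤ) : ℝ) < ((P x (j + n) - P x j : ℤ) : ℝ) := by linarith
    have := Int.cast_lt.mp this
    omega
  · exact ⟨⟨i, by omega⟩, ⟨i, by omega⟩⟩

open Classical in
theorem s_Rc {x : ℕ → Bool} {α : ℝ} (hα : HasUniformFrequency x α) (t : ℝ) (a b : ℕ) :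
    s (ofPath (Rc x α t)) α b - s (ofPath (Rc x α t)) α a =
      (s x α b - if t ≤ s x α b then 1 else 0) - (s x α a - if t ≤ s x α a then 1 else 0) := by
  rw [s_ofPath (Rc_corridor hα t)]
  simp only [Rc]
  push_cast
  simp only [s]
  ring

/-- occurrences of a long initial block keep the level up to `δ` -/
theorem level_recur {x : ℕ → Bool} {α m M : ℝ} (hr : UniformlyRecurrent x)
    (hm : IsGLB (range (s x α)) m) (hM : IsLUB (range (s x α)) M) {δ : ℝ} (hδ : 0 < δ) (N₀ : ℕ) :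
    ∃ a b L, s x α a < m + δ ∧ M - δ < s x α b ∧ ∀ k, ∃ j, k ≤ j ∧ j ≤ k + L ∧ ∃ c, |c| < δ ∧
      (∀ u ≤ N₀, s x α (j + u) = s x α u + c) ∧ s x α (j + a) = s x α a + c ∧
        s x α (j + b) = s x α b + c := by
  obtain ⟨_, ⟨a, rfl⟩, -, ha⟩ := hm.exists_between (lt_add_of_pos_right m hδ)
  obtain ⟨_, ⟨b, rfl⟩, hb, -⟩ := hM.exists_between (sub_lt_self M hδ)
  obtain ⟨L, hL⟩ := recur hr 0 (N₀ + a + b)
  refine ⟨a, b, L, ha, hb, fun k => ?_⟩
  obtain ⟨j, h1, h2, h3⟩ := hL k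
  have key := s_congr α h3
  simp only [zero_add] at key
  have ea := key a (by omega)
  have eb := key b (by omega)
  have fa := hm.1 ⟨j + a, rfl⟩
  have fb := hM.1 ⟨j + b, rfl⟩
  refine ⟨j, h1, h2, s x α j - s x α 0, abs_lt.mpr ⟨by linarith, by linarith⟩,
    fun u hu => ?_, by linarith, by linarith⟩
  have := key u (by omega)
  linarith

theorem closure_uncountable {x : ℕ → Bool} {α m M : ℝ} (hr : UniformlyRecurrent x)
    (hirr : Irrational α) (hm : IsGLB (range (s x α)) m) (hM : IsLUB (range (s x α)) M)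
    {ε : ℝ} (hε : 0 < ε) : ¬ (closure (range (s x α) ∩ Icc (M - ε) M)).Countable := by
  intro hc
  set A := closure (range (s x α) ∩ Icc (M - ε) M) with hA
  have hAc : IsCompact A :=
    isCompact_Icc.of_isClosed_subset isClosed_closure
      (closure_minimal inter_subset_right isClosed_Icc)
  obtain ⟨a, b, L, -, hb, hL⟩ := level_recur hr hm hM (half_pos hε) 0
  have : Fact ((0 : ℝ) < 1) := ⟨one_pos⟩
  let B : Set (AddCircle (1 : ℝ)) :=
    ⋃ g ∈ Finset.range (L + b + 1), (fun r : ℝ => ((r + α * g : ℝ) : AddCircle (1 : ℝ))) '' A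
  have hBc : IsClosed B := by
    refine (Finset.isCompact_biUnion _ fun g _ => hAc.image ?_).isClosed
    exact (AddCircle.continuous_mk' 1).comp (by fun_prop)
  have hBcount : B.Countable := (Finset.countable_toSet _).biUnion fun g _ => hc.image _
  have hdense : DenseRange fun n : ℕ => n • ((-α : ℝ) : AddCircle (1 : ℝ)) := by
    rw [← denseRange_zsmul_iff_nsmul, AddCircle.denseRange_zsmul_coe_iff]
    simpa using hirr
  have hsub : (range fun n : ℕ => n • ((-α : ℝ) : AddCircle (1 : ℝ))) ⊆ B := by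
    rintro _ ⟨n, rfl⟩
    obtain ⟨j, h1, h2, c, hc1, -, -, hc2⟩ := hL n
    obtain ⟨g, rfl⟩ := Nat.exists_eq_add_of_le h1
    have hmem : s x α (n + g + b) ∈ A := by
      refine subset_closure ⟨⟨_, rfl⟩, ?_, hM.1 ⟨_, rfl⟩⟩
      have := (abs_lt.mp hc1).1
      linarith
    refine mem_iUnion₂.mpr ⟨g + b, Finset.mem_range.mpr (by omega), _, hmem, ?_⟩
    have e : s x α (n + g + b) + α * ((g + b : ℕ) : ℝ) = n • (-α) + (P x (n + g + b)) • (1 : ℝ) := by
      simp only [s, nsmul_eq_mul, zsmul_eq_mul]; push_cast; ring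
    simp only [e, AddCircle.coe_add, AddCircle.coe_nsmul, AddCircle.coe_zsmul, AddCircle.coe_period,
      smul_zero, add_zero]
  have huniv : B = univ := by
    rw [← hBc.closure_eq, eq_univ_iff_forall]
    exact fun p => closure_mono hsub (hdense p)
  rw [huniv, countable_univ_iff] at hBcount
  have h2 : (Ico (0 : ℝ) (0 + 1)).Countable :=
    countable_coe_iff.mp ((AddCircle.equivIco (1 : ℝ) 0).symm.injective.countable)
  rw [← Cardinal.le_aleph0_iff_set_countable, Cardinal.mk_Ico_real (by norm_num)] at h2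
  exact absurd h2 (not_le.mpr Cardinal.aleph0_lt_continuum)

theorem bounded_case {x : ℕ → Bool} {α m M : ℝ} (hα : HasUniformFrequency x α)
    (hr : UniformlyRecurrent x) (hirr : Irrational α) (hm : IsGLB (range (s x α)) m)
    (hM : IsLUB (range (s x α)) M) (hD : m + 1 < M) :
    ¬ {M | IsMinimalSubshift M ∧ M ⊆ abelianClosure x}.Countable := by
  classical
  set ε := min 1 (M - m - 1) with hε
  have hε0 : 0 < ε := lt_min one_pos (by linarith)
  have hε1 : ε ≤ 1 := min_le_left _ _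
  have hε2 : ε ≤ M - m - 1 := min_le_right _ _
  set A := closure (range (s x α) ∩ Icc (M - ε) M) with hA
  have hAI : A ⊆ Icc (M - ε) M := closure_minimal inter_subset_right isClosed_Icc
  refine uncountable_of_family (Λ := A \ {t ∈ A | 𝓝[A ∩ Iio t] t = ⊥}) ?_
    (fun t => ofPath (Rc x α t)) (fun t _ => (Rc_corridor hα t).mem) ?_
  · intro hc
    refine closure_uncountable hr hirr hm hM hε0
      ((hc.union (countable_setOfPred_isolated_left_within (s := A))).mono ?_)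
    intro t ht
    by_cases h : 𝓝[A ∩ Iio t] t = ⊥
    · exact .inr ⟨ht, h⟩
    · exact .inl ⟨ht, fun h' => h h'.2⟩
  intro t ht t' ht' hlt z hz hz'
  obtain ⟨i₀, hi₁, hi₂⟩ : ∃ i₀, t < s x α i₀ ∧ s x α i₀ < t' := by
    have h1 : t' ∈ closure (A ∩ Iio t') := by
      rw [mem_closure_iff_nhdsWithin_neBot]
      exact ⟨fun h => ht'.2 ⟨ht'.1, h⟩⟩
    obtain ⟨a, ha1, ha2, ha3⟩ := mem_closure_iff.mp h1 (Ioi t) isOpen_Ioi hlt
    obtain ⟨_, hb, ⟨i₀, rfl⟩, -⟩ := mem_closure_iff.mp ha2 (Ioo t t') isOpen_Ioo ⟨ha1, ha3⟩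
    exact ⟨i₀, hb.1, hb.2⟩
  have ht1 := hAI ht.1
  have ht2 := hAI ht'.1
  set δ := min (1 / 2) (min (s x α i₀ - t) (t' - s x α i₀)) with hδ
  have hδ0 : 0 < δ := lt_min (by norm_num) (lt_min (by linarith) (by linarith))
  have hδ1 : δ ≤ 1 / 2 := min_le_left _ _
  have hδ2 : δ ≤ s x α i₀ - t := (min_le_right _ _).trans (min_le_left _ _)
  have hδ3 : δ ≤ t' - s x α i₀ := (min_le_right _ _).trans (min_le_right _ _)
  obtain ⟨a, b, L, ha, -, hL⟩ := level_recur hr hm hM hδ0 i₀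
  obtain ⟨j, hj⟩ := sub_s hz' α (L + i₀ + a)
  obtain ⟨k, hk⟩ := sub_s hz α (L + i₀ + a)
  obtain ⟨j', h1, h2, c, hc, h3, h4, -⟩ := hL j
  obtain ⟨u, rfl⟩ := Nat.exists_eq_add_of_le h1
  have e1 := hj (u + i₀) (by omega) (u + a) (by omega)
  have e2 := hk (u + i₀) (by omega) (u + a) (by omega)
  rw [s_Rc hα, ← add_assoc, ← add_assoc, h3 i₀ le_rfl, h4] at e1
  rw [s_Rc hα] at e2
  have hc' := abs_lt.mp hc
  rw [if_neg (by linarith), if_neg (by linarith [ht2.1])] at e1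
  have f1 := hM.1 ⟨k + (u + i₀), rfl⟩
  have f2 := hm.1 ⟨k + (u + a), rfl⟩
  have g1 := ht1.1
  split_ifs at e2 with p q q <;> (try rw [not_le] at p) <;> (try rw [not_le] at q) <;> linarith

theorem main {x : ℕ → Bool} {α : ℝ} (hr : UniformlyRecurrent x) (ha : Aperiodic x)
    (hs : ¬ Sturmian x) (hα : HasUniformFrequency x α) (hirr : Irrational α) :
    ¬ {M | IsMinimalSubshift M ∧ M ⊆ abelianClosure x}.Countable := by
  by_cases hU : ∀ K : ℝ, ∃ i n, K < |s x α (i + n) - s x α i|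
  · exact unbounded_case hα hr hU
  push Not at hU
  obtain ⟨K, hK⟩ := hU
  have h0 : ∀ n, |s x α n - s x α 0| ≤ K := fun n => by simpa using hK 0 n
  have hup : BddAbove (range (s x α)) :=
    ⟨s x α 0 + K, by rintro _ ⟨n, rfl⟩; linarith [(abs_le.mp (h0 n)).2]⟩
  have hlo : BddBelow (range (s x α)) :=
    ⟨s x α 0 - K, by rintro _ ⟨n, rfl⟩; linarith [(abs_le.mp (h0 n)).1]⟩
  have hM := isLUB_csSup (range_nonempty (s x α)) hup
  have hm := isGLB_csInf (range_nonempty (s x α)) hlo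
  refine bounded_case hα hr hirr hm hM ?_
  by_contra hD
  refine hs (sturmian_of_balanced ha fun i j n => ?_)
  rcases Nat.eq_zero_or_pos n with rfl | hn
  · simp
  by_contra hc
  have h1 := s_sub x α i n
  have h2 := s_sub x α j n
  have h3 : ((P x (j + n) - P x j : ℤ) : ℝ) + 2 ≤ (P x (i + n) - P x i : ℤ) := by
    have : P x (j + n) - P x j + 2 ≤ P x (i + n) - P x i := by omega
    exact_mod_cast this
  have a1 := hM.1 ⟨i + n, rfl⟩
  have a2 := hm.1 ⟨i, rfl⟩
  have a3 := hM.1 ⟨j, rfl⟩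
  have a4 := hm.1 ⟨j + n, rfl⟩
  have h4 : α * n = ((P x (j + n) - P x j + 1 : ℤ) : ℝ) := by push_cast at *; linarith
  exact (hirr.mul_natCast hn.ne').ne_int _ h4

end Pool.Agent.P.MP_fa9958_co
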