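import Pool.Agent.P.MP_fa9958_co.Basic

/-! Balanced aperiodic words are Sturmian. -/

namespace Pool.Agent.P.MP_fa9958_co

def Fac (x : ℕ → Bool) (n : ℕ) : Set (List Bool) := {u | IsFactor u x ∧ u.length = n}

theorem mem_Fac {x : ℕ → Bool} {n : ℕ} {u : List Bool} : u ∈ Fac x n ↔ ∃ i, u = block x i n := by
  constructor
  · rintro ⟨⟨i, hi⟩, rfl⟩; exact ⟨i, hi⟩
  · rintro ⟨i, rfl⟩; exact ⟨isFactor_block _ _ _, by simp⟩

theorem Fac_finite (x : ℕ → Bool) (n : ℕ) : (Fac x n).Finite :=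
  (List.finite_length_eq Bool n).subset fun _ h => h.2

/-- factors of length `n` that can be followed by `b` -/
def Ext (x : ℕ → Bool) (n : ℕ) (b : Bool) : Set (List Bool) :=
  {u | ∃ i, u = block x i n ∧ x (i + n) = b}

theorem Ext_subset (x : ℕ → Bool) (n : ℕ) (b : Bool) : Ext x n b ⊆ Fac x n := by
  rintro u ⟨i, hi, -⟩; exact mem_Fac.mpr ⟨i, hi⟩

theorem Ext_union (x : ℕ → Bool) (n : ℕ) : Ext x n false ∪ Ext x n true = Fac x n := by
  refine (Set.union_subset (Ext_subset _ _ _) (Ext_subset _ _ _)).antisymm fun u hu => ?_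
  obtain ⟨i, hi⟩ := mem_Fac.mp hu
  cases h : x (i + n)
  · exact .inl ⟨i, hi, h⟩
  · exact .inr ⟨i, hi, h⟩

theorem Fac_succ (x : ℕ → Bool) (n : ℕ) : Fac x (n + 1) =
    (fun u => u ++ [false]) '' Ext x n false ∪ (fun u => u ++ [true]) '' Ext x n true := by
  ext u
  rw [mem_Fac]
  constructor
  · rintro ⟨i, rfl⟩
    rw [block_succ]
    cases h : x (i + n)
    · exact .inl ⟨_, ⟨i, rfl, h⟩, rfl⟩
    · exact .inr ⟨_, ⟨i, rfl, h⟩, rfl⟩
  · rintro (⟨_, ⟨i, rfl, h⟩, rfl⟩ | ⟨_, ⟨i, rfl, h⟩, rfl⟩) <;> exact ⟨i, by rw [block_succ, h]⟩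

theorem ncard_Fac_succ (x : ℕ → Bool) (n : ℕ) :
    (Fac x (n + 1)).ncard = (Fac x n).ncard + (Ext x n false ∩ Ext x n true).ncard := by
  have f0 := (Fac_finite x n).subset (Ext_subset x n false)
  have f1 := (Fac_finite x n).subset (Ext_subset x n true)
  rw [← Ext_union x n, Set.ncard_union_add_ncard_inter _ _ f0 f1, Fac_succ,
    Set.ncard_union_eq _ (f0.image _) (f1.image _),
    Set.ncard_image_of_injective _ (List.append_left_injective _),
    Set.ncard_image_of_injective _ (List.append_left_injective _)]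
  rw [Set.disjoint_left]
  rintro _ ⟨u, -, rfl⟩ ⟨v, -, h⟩
  have := List.append_inj_right' h rfl
  simp at this

theorem special_nonempty {x : ℕ → Bool} (hx : Aperiodic x) (n : ℕ) :
    (Ext x n false ∩ Ext x n true).Nonempty := by
  by_contra hc
  rw [Set.not_nonempty_iff_eq_empty] at hc
  have hdet : ∀ a b, block x a n = block x b n → x (a + n) = x (b + n) := by
    intro a b hab
    by_contra hne
    have : block x a n ∈ Ext x n false ∩ Ext x n true := by
      cases ha : x (a + n) <;> cases hb : x (b + n)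
      · exact absurd (ha.trans hb.symm) hne
      · exact ⟨⟨a, rfl, ha⟩, ⟨b, hab, hb⟩⟩
      · exact ⟨⟨b, hab, hb⟩, ⟨a, rfl, ha⟩⟩
      · exact absurd (ha.trans hb.symm) hne
    rw [hc] at this
    exact this
  obtain ⟨i, j, hij, h⟩ := Set.Finite.exists_lt_map_eq_of_forall_mem
    (f := fun i => block x i n) (fun i => mem_Fac.mpr ⟨i, rfl⟩) (Fac_finite x n)
  have key : ∀ k, block x (i + k) n = block x (j + k) n := by
    intro k
    induction k with
    | zero => exact h
    | succ k ih =>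
      have h1 := hdet _ _ ih
      rw [block_eq_iff] at ih ⊢
      intro t ht
      rcases Nat.lt_or_ge (t + 1) n with h2 | h2
      · have := ih (t + 1) h2
        convert this using 2 <;> omega
      · convert h1 using 2 <;> omega
  refine hx ⟨j - i, i + n, by omega, fun m hm => ?_⟩
  have := hdet _ _ (key (m - (i + n)))
  convert this.symm using 2 <;> omega

theorem special_subsingleton {x : ℕ → Bool}
    (hb : ∀ i j n, P x (i + n) - P x i ≤ P x (j + n) - P x j + 1) (n : ℕ) :
    (Ext x n false ∩ Ext x n true).Subsingleton := by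
  have key : ∀ a b t, t < n → x (a + t) = false → x (a + n) = false → x (b + t) = true →
      x (b + n) = true → (∀ r, t < r → r < n → x (a + r) = x (b + r)) → False := by
    intro a b t ht h1 h2 h3 h4 h5
    obtain ⟨m, rfl⟩ := Nat.exists_eq_add_of_lt ht
    have e := P_sub_congr (x := x) (y := x) (i := a + t + 1) (j := b + t + 1) (n := m)
      (fun r hr => by
        have := h5 (t + 1 + r) (by omega) (by omega)
        convert this using 2 <;> omega) m le_rfl
    have := hb (b + t) (a + t) (m + 2)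
    have e1 : a + t + (m + 2) = a + (t + m + 1) + 1 := by omega
    have e2 : b + t + (m + 2) = b + (t + m + 1) + 1 := by omega
    have e3 : a + t + 1 + m = a + (t + m + 1) := by omega
    have e4 : b + t + 1 + m = b + (t + m + 1) := by omega
    rw [e1, e2, P_succ, P_succ, h2, h4] at this
    rw [e3, e4, P_succ, P_succ, h1, h3] at e
    simp at this e
    omega
  rintro u ⟨⟨a₀, ha₀, h₀⟩, ⟨a₁, ha₁, h₁⟩⟩ v ⟨⟨b₀, hb₀, k₀⟩, ⟨b₁, hb₁, k₁⟩⟩
  by_contra hne
  have hA : ∀ t < n, x (a₀ + t) = x (a₁ + t) := block_eq_iff.mp (ha₀.symm.trans ha₁)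
  have hB : ∀ t < n, x (b₀ + t) = x (b₁ + t) := block_eq_iff.mp (hb₀.symm.trans hb₁)
  have hex : ∃ t ∈ Finset.range n, x (a₀ + t) ≠ x (b₀ + t) := by
    by_contra hc
    push Not at hc
    exact hne (ha₀.trans ((block_eq_iff.mpr fun t ht => hc t (Finset.mem_range.mpr ht)).trans
      hb₀.symm))
  obtain ⟨t, ht, hmax⟩ := Finset.exists_max_image
    ((Finset.range n).filter fun t => x (a₀ + t) ≠ x (b₀ + t)) id
    (by obtain ⟨t, h1, h2⟩ := hex; exact ⟨t, Finset.mem_filter.mpr ⟨h1, h2⟩⟩)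
  rw [Finset.mem_filter, Finset.mem_range] at ht
  have hr : ∀ r, t < r → r < n → x (a₀ + r) = x (b₀ + r) := by
    intro r h1 h2
    by_contra hc
    have := hmax r (Finset.mem_filter.mpr ⟨Finset.mem_range.mpr h2, hc⟩)
    simp at this; omega
  cases ha : x (a₀ + t) <;> cases hb' : x (b₀ + t)
  · exact ht.2 (ha.trans hb'.symm)
  · exact key a₀ b₁ t ht.1 ha h₀ (hB t ht.1 ▸ hb') k₁
      fun r h1 h2 => (hr r h1 h2).trans (hB r h2)
  · exact key b₀ a₁ t ht.1 hb' k₀ (hA t ht.1 ▸ ha) h₁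
      fun r h1 h2 => (hr r h1 h2).symm.trans (hA r h2)
  · exact ht.2 (ha.trans hb'.symm)

theorem sturmian_of_balanced {x : ℕ → Bool} (hx : Aperiodic x)
    (hb : ∀ i j n, P x (i + n) - P x i ≤ P x (j + n) - P x j + 1) : Sturmian x := by
  refine ⟨hx, fun n => ?_⟩
  change (Fac x n).ncard = n + 1
  induction n with
  | zero =>
    have : Fac x 0 = {[]} := by
      ext u; rw [mem_Fac]; simp [block]
    simp [this]
  | succ n ih =>
    obtain ⟨u, hu⟩ := special_nonempty hx n
    rw [ncard_Fac_succ, ih, (special_subsingleton hb n).eq_singleton_of_mem hu]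
    simp

end Pool.Agent.P.MP_fa9958_co
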